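import Pool.Agent.U260.GZ.Stm

set_option autoImplicit false
set_option linter.unusedVariables false

/-!
Project GZ (helper260), package BB (helper678): bound for a block with a saving
-/

namespace Pool.Agent.U678.GZ.BB

open Complex Filter Topology MeasureTheory Set
open Pool.Agent.N879.GD

/-- partial summation -/
theorem abel (A e : ℕ → ℂ) (L : ℕ) (B M V : ℝ) (hB0 : 0 ≤ B) (hM0 : 0 ≤ M) (hV0 : 0 ≤ V)
    (hB : ∀ L' ≤ L, ‖∑ r ∈ Finset.range L', e r‖ ≤ B) (hA : ∀ r < L, ‖A r‖ ≤ M)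
    (hV : ∀ r, r + 1 < L → ‖A (r + 1) - A r‖ ≤ V) :
    ‖∑ r ∈ Finset.range L, A r * e r‖ ≤ B * (M + L * V) := by
  have h1 := Finset.sum_range_by_parts A e L
  simp only [smul_eq_mul] at h1
  rw [h1]
  have h2 : ‖A (L - 1) * ∑ r ∈ Finset.range L, e r‖ ≤ M * B := by
    rcases Nat.eq_zero_or_pos L with h | h
    · subst h
      simp only [Finset.range_zero, Finset.sum_empty, mul_zero, norm_zero]
      positivity
    · rw [norm_mul]
      exact mul_le_mul (hA _ (by omega)) (hB L le_rfl) (norm_nonneg _) hM0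
  have h3 : ‖∑ i ∈ Finset.range (L - 1), (A (i + 1) - A i) * ∑ j ∈ Finset.range (i + 1), e j‖ ≤
      L * (V * B) := by
    refine (norm_sum_le _ _).trans ?_
    have h4 : ∀ i ∈ Finset.range (L - 1), ‖(A (i + 1) - A i) * ∑ j ∈ Finset.range (i + 1), e j‖ ≤
        V * B := by
      intro i hi
      rw [Finset.mem_range] at hi
      rw [norm_mul]
      exact mul_le_mul (hV i (by omega)) (hB (i + 1) (by omega)) (norm_nonneg _) hV0
    refine (Finset.sum_le_sum h4).trans ?_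
    rw [Finset.sum_const, Finset.card_range, nsmul_eq_mul]
    apply mul_le_mul_of_nonneg_right _ (by positivity)
    exact_mod_cast Nat.sub_le L 1
  refine (norm_sub_le _ _).trans ((add_le_add h2 h3).trans (le_of_eq ?_))
  ring

/-- `log (1 + t/m)` -/
noncomputable def xx (m : ℕ) (t : ℝ) : ℝ := Real.log (1 + t / m)

/-- `1/T - i x` -/
noncomputable def zc (T : ℝ) (m : ℕ) (t : ℝ) : ℂ := (T : ℂ)⁻¹ - I * (xx m t : ℂ)

/-- the exponent -/
noncomputable def Ph (σ T y ω : ℝ) (b m : ℕ) (t : ℝ) : ℂ :=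
  -((1 / 2 + σ : ℂ) + I * y) * (Real.log (m * (m + t)) : ℂ) -
    ((b : ℂ) - I * ω) * Complex.log (zc T m t) - I * ω * (Real.log (xx m t) : ℂ)

/-- its derivative -/
noncomputable def Dh (σ T y ω : ℝ) (b m : ℕ) (t : ℝ) : ℂ :=
  -((1 / 2 + σ : ℂ) + I * y) * (((m + t)⁻¹ : ℝ) : ℂ) -
    ((b : ℂ) - I * ω) * ((-(I * (((m + t)⁻¹ : ℝ) : ℂ))) / zc T m t) -
    I * ω * ((((m + t)⁻¹ / xx m t : ℝ)) : ℂ)

section

variable {T : ℝ} {m R : ℕ} {t : ℝ}

theorem xx_pos (hm : 1 ≤ m) (ht : 0 < t) : 0 < xx m t := by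
  have hm' : (0 : ℝ) < m := by exact_mod_cast hm
  apply Real.log_pos
  have : 0 < t / m := div_pos ht hm'
  linarith

theorem xx_mono (hm : 1 ≤ m) {s : ℝ} (hs : 0 ≤ s) (hst : s ≤ t) : xx m s ≤ xx m t := by
  have hm' : (0 : ℝ) < m := by exact_mod_cast hm
  apply Real.log_le_log
  · have : 0 ≤ s / m := div_nonneg hs hm'.le
    linarith
  · have : s / m ≤ t / m := div_le_div_of_nonneg_right hst hm'.le
    linarith

theorem xx_two (hm : 1 ≤ m) {s : ℝ} (hs : 0 ≤ s) (hst : t ≤ 2 * s) (ht : 0 ≤ t) :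
    xx m t ≤ 2 * xx m s := by
  have hm' : (0 : ℝ) < m := by exact_mod_cast hm
  have h0 : 0 ≤ s / m := div_nonneg hs hm'.le
  have h1 : 2 * xx m s = Real.log ((1 + s / m) ^ 2) := by
    rw [Real.log_pow]
    push_cast
    rfl
  rw [h1]
  apply Real.log_le_log
  · have : 0 ≤ t / m := div_nonneg ht hm'.le
    linarith
  · have h2 : t / m ≤ 2 * (s / m) := by
      rw [← mul_div_assoc]
      exact div_le_div_of_nonneg_right hst hm'.le
    nlinarith

theorem xx_low (hm : 1 ≤ m) (ht : 0 < t) : t ≤ (m + t) * xx m t := by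
  have hm' : (0 : ℝ) < m := by exact_mod_cast hm
  have h1 : 0 < 1 + t / m := by
    have : 0 < t / m := div_pos ht hm'
    linarith
  have h2 := Real.one_sub_inv_le_log_of_pos h1
  have h3 : 1 - (1 + t / m)⁻¹ = t / (m + t) := by
    field_simp
    ring
  rw [h3, div_le_iff₀ (by linarith)] at h2
  unfold xx
  linarith

theorem zc_re (hT : 0 < T) : (zc T m t).re = T⁻¹ := by
  unfold zc
  rw [← Complex.ofReal_inv]
  simp

theorem zc_im (hT : 0 < T) : (zc T m t).im = - xx m t := by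
  unfold zc
  rw [← Complex.ofReal_inv]
  simp

theorem zc_ne (hT : 0 < T) : zc T m t ≠ 0 := by
  intro h
  have h1 := zc_re (m := m) (t := t) hT
  rw [h] at h1
  simp only [Complex.zero_re] at h1
  exact (inv_pos.2 hT).ne h1

theorem zc_norm (hT : 0 < T) : xx m t ≤ ‖zc T m t‖ := by
  have h1 := Complex.abs_im_le_norm (zc T m t)
  rw [zc_im hT, abs_neg] at h1
  exact (le_abs_self _).trans h1

theorem zc_norm' (hT : 0 < T) (hx : 0 ≤ xx m t) : ‖zc T m t‖ ≤ T⁻¹ + xx m t := by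
  have h1 := Complex.norm_le_abs_re_add_abs_im (zc T m t)
  rw [zc_re hT, zc_im hT, abs_neg, abs_of_pos (inv_pos.2 hT), abs_of_nonneg hx] at h1
  exact h1

/-- the argument -/
theorem arg_bound (hT : 0 < T) (hm : 1 ≤ m) (hR : 1 ≤ R) (hz : 1 ≤ zz T m R) (ht : (R : ℝ) ≤ t)
    (ht2 : t ≤ 2 * R) : |(zc T m t).arg| ≤ Real.pi / 2 - 1 / (4 * zz T m R) := by
  have hR' : (0 : ℝ) < R := by exact_mod_cast hR
  have hx : 0 < xx m t := xx_pos hm (by linarith)
  have h1 : |(zc T m t).arg| ≤ Real.pi / 2 := by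
    rw [Complex.abs_arg_le_pi_div_two_iff, zc_re hT]
    exact (inv_pos.2 hT).le
  have h2 : Real.cos (zc T m t).arg = T⁻¹ / ‖zc T m t‖ := by
    rw [Complex.cos_arg (zc_ne hT), zc_re hT]
  have h3 : Real.cos (zc T m t).arg ≤ Real.pi / 2 - |(zc T m t).arg| := by
    rw [← Real.cos_abs, ← Real.sin_pi_div_two_sub]
    exact Real.sin_le (by linarith)
  have hzz : zz T m R = T * xx m R := rfl
  have h4 : T * ‖zc T m t‖ ≤ 4 * zz T m R := by
    have h5 := zc_norm' hT hx.le (m := m) (t := t)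
    have h6 := xx_two hm hR'.le ht2 (by linarith : (0 : ℝ) ≤ t)
    calc T * ‖zc T m t‖ ≤ T * (T⁻¹ + xx m t) := mul_le_mul_of_nonneg_left h5 hT.le
      _ = 1 + T * xx m t := by field_simp
      _ ≤ 1 + T * (2 * xx m R) := by
          have := mul_le_mul_of_nonneg_left h6 hT.le
          linarith
      _ = 1 + 2 * zz T m R := by rw [hzz]; ring
      _ ≤ 4 * zz T m R := by linarith
  have h7 : 1 / (4 * zz T m R) ≤ T⁻¹ / ‖zc T m t‖ := by
    have h8 : T⁻¹ / ‖zc T m t‖ = 1 / (T * ‖zc T m t‖) := by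
      rw [div_eq_mul_inv, one_div, mul_inv]
    rw [h8]
    apply one_div_le_one_div_of_le _ h4
    exact mul_pos hT (norm_pos_iff.2 (zc_ne hT))
  linarith

theorem hasDeriv (σ y ω : ℝ) (b : ℕ) (hT : 0 < T) (hm : 1 ≤ m) (ht : 0 < t) :
    HasDerivAt (Ph σ T y ω b m) (Dh σ T y ω b m t) t := by
  have hm' : (0 : ℝ) < m := by exact_mod_cast hm
  have hx := xx_pos hm ht
  have hmt : (0 : ℝ) < m + t := by linarith
  have h1 : HasDerivAt (fun s : ℝ => Real.log (m * (m + s))) ((m + t)⁻¹) t := by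
    have h2 : HasDerivAt (fun s : ℝ => (m : ℝ) * (m + s)) (m * 1) t :=
      ((hasDerivAt_id t).const_add (m : ℝ)).const_mul (m : ℝ)
    have h3 := h2.log (by positivity)
    refine h3.congr_deriv ?_
    field_simp
  have h4 : HasDerivAt (fun s : ℝ => xx m s) ((m + t)⁻¹) t := by
    have h2 : HasDerivAt (fun s : ℝ => 1 + s / m) (1 / m) t :=
      ((hasDerivAt_id t).div_const (m : ℝ)).const_add 1
    have h5 : 0 < 1 + t / m := by positivity
    have h3 := h2.log h5.ne'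
    refine h3.congr_deriv ?_
    field_simp
  have h5 : HasDerivAt (fun s : ℝ => Real.log (xx m s)) ((m + t)⁻¹ / xx m t) t := h4.log hx.ne'
  have h6 : HasDerivAt (fun s : ℝ => zc T m s) (-(I * (((m + t)⁻¹ : ℝ) : ℂ))) t := by
    unfold zc
    have h7 := (h4.ofReal_comp.const_mul I).const_sub ((T : ℂ)⁻¹)
    exact h7
  have h8 : HasDerivAt (fun s : ℝ => Complex.log (zc T m s))
      ((-(I * (((m + t)⁻¹ : ℝ) : ℂ))) / zc T m t) t := by
    refine h6.clog_real ?_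
    rw [Complex.mem_slitPlane_iff]
    left
    rw [zc_re hT]
    exact inv_pos.2 hT
  have h9 := ((h1.ofReal_comp.const_mul (-((1 / 2 + σ : ℂ) + I * y))).sub
    (h8.const_mul ((b : ℂ) - I * ω))).sub (h5.ofReal_comp.const_mul (I * ω))
  exact h9

theorem Dh_eq (σ y ω : ℝ) (b : ℕ) (hT : 0 < T) (hx : 0 < xx m t) :
    Dh σ T y ω b m t = (((m + t)⁻¹ : ℝ) : ℂ) * (-((1 / 2 + σ : ℂ) + I * y) + I * b / zc T m t -
      I * ω * (T : ℂ)⁻¹ / (zc T m t * (xx m t : ℂ))) := by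
  have hz := zc_ne (m := m) (t := t) hT
  have hxc : ((xx m t : ℝ) : ℂ) ≠ 0 := by exact_mod_cast hx.ne'
  have hI : I ^ 2 = -1 := Complex.I_sq
  have hzd : (T : ℂ)⁻¹ = zc T m t + I * (xx m t : ℂ) := by unfold zc; ring
  unfold Dh
  rw [hzd, Complex.ofReal_div]
  field_simp
  ring

/-- the bound of the derivative -/
theorem Dh_le (σ y ω : ℝ) (b : ℕ) (h0 : 0 ≤ σ) (h1 : σ ≤ 1) (hT : 0 < T) (hm : 1 ≤ m)
    (hR : 1 ≤ R) (hz : 1 ≤ zz T m R) (ht : (R : ℝ) ≤ t) :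
    ‖Dh σ T y ω b m t‖ ≤ ((b : ℝ) + 2) * ((1 + |y|) * (1 + (1 + |ω|) / zz T m R)) / R := by
  have hR' : (0 : ℝ) < R := by exact_mod_cast hR
  have hm' : (0 : ℝ) < m := by exact_mod_cast hm
  have ht0 : 0 < t := by linarith
  have hx : 0 < xx m t := xx_pos hm ht0
  have hxR : 0 < xx m R := xx_pos hm hR'
  have hzz : zz T m R = T * xx m R := rfl
  have hz0 : 0 < zz T m R := by linarith
  have hxm : xx m R ≤ xx m t := xx_mono hm hR'.le ht
  have hnz := zc_norm (m := m) (t := t) hT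
  have hnz0 : 0 < ‖zc T m t‖ := lt_of_lt_of_le hx hnz
  rw [Dh_eq σ y ω b hT hx, norm_mul]
  have e0 : ‖(((m + t)⁻¹ : ℝ) : ℂ)‖ = (m + t)⁻¹ := by
    rw [Complex.norm_real, Real.norm_of_nonneg (by positivity)]
  have e1 : ‖-((1 / 2 + σ : ℂ) + I * y)‖ ≤ 3 / 2 + |y| := by
    rw [norm_neg]
    refine (norm_add_le _ _).trans ?_
    have e2 : ‖(1 / 2 + σ : ℂ)‖ ≤ 3 / 2 := by
      have : (1 / 2 + σ : ℂ) = ((1 / 2 + σ : ℝ) : ℂ) := by push_cast; ring
      rw [this, Complex.norm_real, Real.norm_of_nonneg (by linarith)]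
      linarith
    have e3 : ‖I * (y : ℂ)‖ = |y| := by
      rw [norm_mul, Complex.norm_I, one_mul, Complex.norm_real, Real.norm_eq_abs]
    linarith
  have e4 : ‖I * b / zc T m t‖ ≤ b / xx m t := by
    rw [norm_div, norm_mul, Complex.norm_I, one_mul, Complex.norm_natCast]
    exact div_le_div_of_nonneg_left (Nat.cast_nonneg _) hx hnz
  have e5 : ‖I * ω * (T : ℂ)⁻¹ / (zc T m t * (xx m t : ℂ))‖ ≤ |ω| / (T * xx m t) / xx m t := by
    rw [norm_div, norm_mul, norm_mul, norm_mul, Complex.norm_I, one_mul, Complex.norm_real,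
      Real.norm_eq_abs, norm_inv, Complex.norm_real, Real.norm_of_nonneg hT.le, Complex.norm_real,
      Real.norm_of_nonneg hx.le]
    have : |ω| / (T * xx m t) / xx m t = |ω| * T⁻¹ / (xx m t * xx m t) := by
      field_simp
    rw [this]
    apply div_le_div_of_nonneg_left (by positivity) (by positivity)
    exact mul_le_mul_of_nonneg_right hnz hx.le
  rw [e0]
  have hlow : (m + t)⁻¹ * (xx m t)⁻¹ ≤ (R : ℝ)⁻¹ := by
    rw [← mul_inv]
    apply inv_anti₀ hR'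
    have h2 := xx_low hm hR' (t := (R : ℝ))
    calc (R : ℝ) ≤ (m + R) * xx m R := h2
      _ ≤ (m + t) * xx m t := mul_le_mul (by linarith) hxm hxR.le (by linarith)
  have hlow0 : (m + t)⁻¹ ≤ (R : ℝ)⁻¹ := inv_anti₀ hR' (by linarith)
  have hmt0 : 0 < (m + t)⁻¹ := inv_pos.2 (by linarith)
  have e6 : |ω| / (T * xx m t) ≤ |ω| / zz T m R := by
    apply div_le_div_of_nonneg_left (abs_nonneg _) hz0
    rw [hzz]
    exact mul_le_mul_of_nonneg_left hxm hT.le
  have htri : ‖-((1 / 2 + σ : ℂ) + I * y) + I * b / zc T m t -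
      I * ω * (T : ℂ)⁻¹ / (zc T m t * (xx m t : ℂ))‖ ≤
      (3 / 2 + |y|) + b / xx m t + |ω| / (T * xx m t) / xx m t :=
    (norm_sub_le _ _).trans (add_le_add ((norm_add_le _ _).trans (add_le_add e1 e4)) e5)
  calc (m + t)⁻¹ * ‖-((1 / 2 + σ : ℂ) + I * y) + I * b / zc T m t -
      I * ω * (T : ℂ)⁻¹ / (zc T m t * (xx m t : ℂ))‖ ≤
      (m + t)⁻¹ * ((3 / 2 + |y|) + b / xx m t + |ω| / (T * xx m t) / xx m t) :=
        mul_le_mul_of_nonneg_left htri hmt0.le
    _ = (m + t)⁻¹ * (3 / 2 + |y|) + ((m + t)⁻¹ * (xx m t)⁻¹) * (b + |ω| / (T * xx m t)) := by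
        field_simp
        ring
    _ ≤ (R : ℝ)⁻¹ * (3 / 2 + |y|) + (R : ℝ)⁻¹ * (b + |ω| / zz T m R) := by
        apply add_le_add
        · exact mul_le_mul_of_nonneg_right hlow0 (by positivity)
        · exact mul_le_mul hlow (by linarith) (by positivity) (by positivity)
    _ = (3 / 2 + |y| + b + |ω| / zz T m R) / R := by
        field_simp
        ring
    _ ≤ _ := by
        apply div_le_div_of_nonneg_right _ hR'.le
        have hq : (0 : ℝ) ≤ |ω| / zz T m R := by positivity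
        have hq1 : (0 : ℝ) ≤ 1 / zz T m R := by positivity
        have hs : (1 + |ω|) / zz T m R = 1 / zz T m R + |ω| / zz T m R := by ring
        rw [hs]
        have hb : (0 : ℝ) ≤ b := Nat.cast_nonneg _
        have hy : (0 : ℝ) ≤ |y| := abs_nonneg _
        generalize |ω| / zz T m R = W at hq ⊢
        generalize 1 / zz T m R = W1 at hq1 ⊢
        generalize |y| = Y at hy ⊢
        have i1 : 0 ≤ (b : ℝ) * Y := mul_nonneg hb hy
        have i2 : 0 ≤ (b : ℝ) * W := mul_nonneg hb hq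
        have i3 : 0 ≤ (b : ℝ) * W1 := mul_nonneg hb hq1
        have i4 : 0 ≤ Y * W := mul_nonneg hy hq
        have i5 : 0 ≤ Y * W1 := mul_nonneg hy hq1
        have i6 : 0 ≤ (b : ℝ) * (Y * W) := mul_nonneg hb i4
        have i7 : 0 ≤ (b : ℝ) * (Y * W1) := mul_nonneg hb i5
        nlinarith

/-- the bound of the amplitude -/
theorem amp (σ y ω CG : ℝ) (b : ℕ) (hCG : 0 < CG) (hG : ‖Gamma ((b : ℂ) - I * ω)‖ ≤
      CG * (1 + |ω|) ^ ((b : ℝ) - 1 / 2) * Real.exp (-(Real.pi * |ω| / 2)))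
    (h0 : 0 ≤ σ) (hT : 0 < T) (hm : 1 ≤ m) (hR : 1 ≤ R) (hz : 1 ≤ zz T m R)
    (ht : (R : ℝ) ≤ t) (ht2 : t ≤ 2 * R) :
    ‖((T : ℂ) ^ b)⁻¹ * Gamma ((b : ℂ) - I * ω) * cexp (Ph σ T y ω b m t)‖ ≤
      CG * (√((m : ℝ) * (m + R)))⁻¹ * (1 + |ω|) ^ (-(1 / 2 : ℝ)) * ((1 + |ω|) / zz T m R) ^ b *
      Real.exp (-(|ω| / (4 * zz T m R))) := by
  have hR' : (0 : ℝ) < R := by exact_mod_cast hR
  have hm' : (1 : ℝ) ≤ m := by exact_mod_cast hm
  have ht0 : 0 < t := by linarith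
  have hx : 0 < xx m t := xx_pos hm ht0
  have hxR : 0 < xx m R := xx_pos hm hR'
  have hzz : zz T m R = T * xx m R := rfl
  have hz0 : 0 < zz T m R := by linarith
  have hxm : xx m R ≤ xx m t := xx_mono hm hR'.le ht
  have hnz := zc_norm (m := m) (t := t) hT
  have hnz0 : 0 < ‖zc T m t‖ := lt_of_lt_of_le hx hnz
  have hω : 0 < 1 + |ω| := by positivity
  have hre : (Ph σ T y ω b m t).re = -(1 / 2 + σ) * Real.log (m * (m + t)) -
      b * Real.log ‖zc T m t‖ - ω * (zc T m t).arg := by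
    unfold Ph
    rw [Complex.log]
    simp [Complex.sub_re, Complex.mul_re, Complex.add_re]
    ring
  rw [norm_mul, norm_mul, norm_inv, norm_pow, Complex.norm_real, Real.norm_of_nonneg hT.le,
    Complex.norm_exp, hre, Real.exp_sub, Real.exp_sub]
  -- the factors
  have f1 : Real.exp (-(1 / 2 + σ) * Real.log (m * (m + t))) ≤ (√((m : ℝ) * (m + R)))⁻¹ := by
    have g1 : (1 : ℝ) ≤ m * (m + R) := by nlinarith
    have g2 : (m : ℝ) * (m + R) ≤ m * (m + t) := by nlinarith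
    have g3 : 0 ≤ Real.log (m * (m + R)) := Real.log_nonneg g1
    have g4 : Real.log (m * (m + R)) ≤ Real.log (m * (m + t)) :=
      Real.log_le_log (by linarith) g2
    have g5 : (√((m : ℝ) * (m + R)))⁻¹ = Real.exp (-(1 / 2) * Real.log (m * (m + R))) := by
      rw [Real.sqrt_eq_rpow, Real.rpow_def_of_pos (by linarith), ← Real.exp_neg]
      congr 1
      ring
    rw [g5]
    apply Real.exp_le_exp.2
    nlinarith
  have f2 : (T ^ b)⁻¹ * (Real.exp (b * Real.log ‖zc T m t‖))⁻¹ ≤ (zz T m R ^ b)⁻¹ := by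
    have g1 : Real.exp (b * Real.log ‖zc T m t‖) = ‖zc T m t‖ ^ b := by
      rw [← Real.log_pow, Real.exp_log (pow_pos hnz0 b)]
    rw [g1, ← mul_inv, ← mul_pow]
    apply inv_anti₀ (pow_pos hz0 b)
    apply pow_le_pow_left₀ hz0.le
    rw [hzz]
    exact mul_le_mul_of_nonneg_left (hxm.trans hnz) hT.le
  have f3 : Real.exp (-(Real.pi * |ω| / 2)) * (Real.exp (ω * (zc T m t).arg))⁻¹ ≤
      Real.exp (-(|ω| / (4 * zz T m R))) := by
    rw [← Real.exp_neg, ← Real.exp_add]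
    apply Real.exp_le_exp.2
    have g1 := arg_bound hT hm hR hz ht ht2
    have g2 : -(ω * (zc T m t).arg) ≤ |ω| * |(zc T m t).arg| := by
      rw [← abs_mul]
      exact neg_le_abs _
    have g3 := mul_le_mul_of_nonneg_left g1 (abs_nonneg ω)
    have g4 : |ω| * (Real.pi / 2 - 1 / (4 * zz T m R)) = Real.pi * |ω| / 2 -
        |ω| / (4 * zz T m R) := by ring
    linarith
  have f4 : (1 + |ω|) ^ ((b : ℝ) - 1 / 2) = (1 + |ω|) ^ (-(1 / 2 : ℝ)) * (1 + |ω|) ^ b := by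
    rw [← Real.rpow_natCast, ← Real.rpow_add hω]
    congr 1
    ring
  rw [f4] at hG
  have hE1 := (Real.exp_pos (-(1 / 2 + σ) * Real.log (m * (m + t)))).le
  have hE2 := (inv_pos.2 (Real.exp_pos (b * Real.log ‖zc T m t‖))).le
  have hE3 := (inv_pos.2 (Real.exp_pos (ω * (zc T m t).arg))).le
  have hTb : 0 ≤ (T ^ b)⁻¹ := (inv_pos.2 (pow_pos hT b)).le
  set E1 := Real.exp (-(1 / 2 + σ) * Real.log (m * (m + t)))
  set E2 := (Real.exp (b * Real.log ‖zc T m t‖))⁻¹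
  set E3 := (Real.exp (ω * (zc T m t).arg))⁻¹
  calc (T ^ b)⁻¹ * ‖Gamma ((b : ℂ) - I * ω)‖ *
      (E1 / Real.exp (b * Real.log ‖zc T m t‖) / Real.exp (ω * (zc T m t).arg)) =
      ‖Gamma ((b : ℂ) - I * ω)‖ * ((T ^ b)⁻¹ * E2) * E1 * E3 := by
        simp only [div_eq_mul_inv, E2, E3]
        ring
    _ ≤ (CG * ((1 + |ω|) ^ (-(1 / 2 : ℝ)) * (1 + |ω|) ^ b) *
        Real.exp (-(Real.pi * |ω| / 2))) * ((T ^ b)⁻¹ * E2) * E1 * E3 := by
        apply mul_le_mul_of_nonneg_right _ hE3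
        apply mul_le_mul_of_nonneg_right _ hE1
        exact mul_le_mul_of_nonneg_right hG (mul_nonneg hTb hE2)
    _ = (CG * ((1 + |ω|) ^ (-(1 / 2 : ℝ)) * (1 + |ω|) ^ b)) * (((T ^ b)⁻¹ * E2) * (E1 *
        (Real.exp (-(Real.pi * |ω| / 2)) * E3))) := by ring
    _ ≤ (CG * ((1 + |ω|) ^ (-(1 / 2 : ℝ)) * (1 + |ω|) ^ b)) * ((zz T m R ^ b)⁻¹ *
        ((√((m : ℝ) * (m + R)))⁻¹ * Real.exp (-(|ω| / (4 * zz T m R))))) := by
        apply mul_le_mul_of_nonneg_left _ (by positivity)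
        apply mul_le_mul f2 _ (by positivity) (by positivity)
        exact mul_le_mul f1 f3 (by positivity) (by positivity)
    _ = _ := by
        rw [div_pow]
        ring

/-- the summand -/
theorem bt_eq (h2 : S_GF) (σ y ω : ℝ) (b r : ℕ) (hb : 1 ≤ b) (hT : 0 < T) (hm : 1 ≤ m)
    (hR : 1 ≤ R) :
    bt σ b T y ω m (m + R + r) = ((T : ℂ) ^ b)⁻¹ * Gamma ((b : ℂ) - I * ω) *
      cexp (Ph σ T y ω b m (R + r)) *
      cexp (I * ((ω * Real.log (Real.log (1 + ((R : ℝ) + r) / m)) : ℝ) : ℂ)) := by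
  have hm' : (0 : ℝ) < m := by exact_mod_cast hm
  have hR' : (0 : ℝ) < R := by exact_mod_cast hR
  have hr' : (0 : ℝ) ≤ r := Nat.cast_nonneg _
  have hn : ((m + R + r : ℕ) : ℝ) = m + (R + r) := by push_cast; ring
  have hx : Real.log ((m + R + r : ℕ) : ℝ) - Real.log m = xx m (R + r) := by
    rw [hn, ← Real.log_div (by positivity) hm'.ne']
    unfold xx
    congr 1
    field_simp
  unfold bt
  rw [(h2 b T _ ω hb hT).2, hx, hn]
  have hL : (((√((m : ℝ) * (m + (R + r))))⁻¹ : ℝ) : ℂ) =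
      cexp (-(1 / 2) * (Real.log (m * (m + (R + r))) : ℂ)) := by
    have g5 : (√((m : ℝ) * (m + (R + r))))⁻¹ =
        Real.exp (-(1 / 2) * Real.log (m * (m + (R + r)))) := by
      rw [Real.sqrt_eq_rpow, Real.rpow_def_of_pos (by positivity), ← Real.exp_neg]
      congr 1
      ring
    rw [g5]
    push_cast
    rfl
  rw [hL]
  have hP : Ph σ T y ω b m (R + r) + I * ((ω * Real.log (Real.log (1 + ((R : ℝ) + r) / m)) : ℝ) : ℂ) =
      -(1 / 2) * (Real.log (m * (m + (R + r))) : ℂ) +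
      -((σ + I * y) * (Real.log ((m : ℝ) * (m + (R + r))) : ℝ)) +
      -((b : ℂ) - I * ω) * Complex.log ((T : ℂ)⁻¹ - I * (xx m (R + r) : ℂ)) := by
    unfold Ph zc
    push_cast
    unfold xx
    ring
  have e1 : cexp (Ph σ T y ω b m (R + r)) *
      cexp (I * ((ω * Real.log (Real.log (1 + ((R : ℝ) + r) / m)) : ℝ) : ℂ)) =
      cexp (-(1 / 2) * (Real.log (m * (m + (R + r))) : ℂ)) *
      cexp (-((σ + I * y) * (Real.log ((m : ℝ) * (m + (R + r))) : ℝ))) *
      cexp (-((b : ℂ) - I * ω) * Complex.log ((T : ℂ)⁻¹ - I * (xx m (R + r) : ℂ))) := by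
    rw [← Complex.exp_add, hP, Complex.exp_add, Complex.exp_add]
  rw [mul_assoc (((T : ℂ) ^ b)⁻¹ * Gamma ((b : ℂ) - I * ω)), e1]
  ring

end

theorem t_BB (h1 : S_GAM) (h2 : S_GF) (h3 : S_LL) : S_BB := by
  obtain ⟨η, hη, hη1, CL, hCL, hLL⟩ := h3
  refine ⟨η, hη, hη1, fun b hb => ?_⟩
  obtain ⟨CG, hCG, hG⟩ := h1 b hb
  refine ⟨CL * CG * (b + 3), by positivity, ?_⟩
  intro σ T y ω m R L h0 h1' hT hm hR hLR hz hk1 hk2
  have hR' : (0 : ℝ) < R := by exact_mod_cast hR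
  have hz0 : 0 < zz T m R := by linarith
  have hkω : 0 < kap m R * |ω| := lt_of_lt_of_le (by positivity) hk1
  set B : ℝ := CL * ((R : ℝ) ^ (1 - η) + R / (kap m R * |ω|)) with hB
  have hB0 : 0 ≤ B := by positivity
  set M : ℝ := CG * (√((m : ℝ) * (m + R)))⁻¹ * (1 + |ω|) ^ (-(1 / 2 : ℝ)) *
      ((1 + |ω|) / zz T m R) ^ b * Real.exp (-(|ω| / (4 * zz T m R))) with hM
  have hM0 : 0 ≤ M := by positivity
  set P : ℝ := (1 + |y|) * (1 + (1 + |ω|) / zz T m R) with hP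
  have hP1 : 1 ≤ P := by
    have g1 : (0 : ℝ) ≤ (1 + |ω|) / zz T m R := by positivity
    have g2 : (0 : ℝ) ≤ |y| := abs_nonneg _
    rw [hP]
    nlinarith
  set K : ℂ := ((T : ℂ) ^ b)⁻¹ * Gamma ((b : ℂ) - I * ω) with hK
  have hA : ∀ t : ℝ, (R : ℝ) ≤ t → t ≤ 2 * R → ‖K * cexp (Ph σ T y ω b m t)‖ ≤ M :=
    fun t ht ht2 => amp σ y ω CG b hCG (hG ω) h0 hT hm hR hz ht ht2
  have hder : ∀ t : ℝ, (R : ℝ) ≤ t → HasDerivAt (fun t => K * cexp (Ph σ T y ω b m t))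
      (K * (cexp (Ph σ T y ω b m t) * Dh σ T y ω b m t)) t := fun t ht =>
    ((hasDeriv σ y ω b hT hm (by linarith)).cexp).const_mul K
  have hvar : ∀ r : ℕ, r + 1 < L → ‖K * cexp (Ph σ T y ω b m (R + ((r + 1 : ℕ) : ℝ))) -
      K * cexp (Ph σ T y ω b m (R + (r : ℝ)))‖ ≤ M * ((b + 2) * P / R) := by
    intro r hr
    have hrR : ((r + 1 : ℕ) : ℝ) ≤ R := by exact_mod_cast (by omega : r + 1 ≤ R)
    have hr0 : (0 : ℝ) ≤ r := Nat.cast_nonneg _
    push_cast at hrR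
    have hmv := (convex_Icc (R : ℝ) (2 * R)).norm_image_sub_le_of_norm_hasDerivWithin_le
      (f := fun t => K * cexp (Ph σ T y ω b m t))
      (f' := fun t => K * (cexp (Ph σ T y ω b m t) * Dh σ T y ω b m t))
      (C := M * ((b + 2) * P / R)) (x := R + (r : ℝ)) (y := R + ((r + 1 : ℕ) : ℝ))
      (fun t ht => (hder t ht.1).hasDerivWithinAt) (fun t ht => by
        rw [← mul_assoc, norm_mul]
        exact mul_le_mul (hA t ht.1 ht.2) (Dh_le σ y ω b h0 h1' hT hm hR hz ht.1)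
          (norm_nonneg _) hM0)
      ⟨by linarith, by linarith⟩ ⟨by push_cast; linarith, by push_cast; linarith⟩
    refine hmv.trans (le_of_eq ?_)
    have : (R + ((r + 1 : ℕ) : ℝ)) - (R + (r : ℝ)) = 1 := by push_cast; ring
    rw [this, norm_one, mul_one]
  have hsum : ∑ r ∈ Finset.range L, bt σ b T y ω m (m + R + r) =
      ∑ r ∈ Finset.range L, (K * cexp (Ph σ T y ω b m (R + (r : ℝ)))) *
        cexp (I * ((ω * Real.log (Real.log (1 + ((R : ℝ) + r) / m)) : ℝ) : ℂ)) :=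
    Finset.sum_congr rfl fun r _ => bt_eq h2 σ y ω b r hb hT hm hR
  rw [hsum]
  have habel := abel (fun r => K * cexp (Ph σ T y ω b m (R + (r : ℝ))))
    (fun r => cexp (I * ((ω * Real.log (Real.log (1 + ((R : ℝ) + r) / m)) : ℝ) : ℂ))) L B M
    (M * ((b + 2) * P / R)) hB0 hM0 (by positivity)
    (fun L' hL' => by
      have hL'R : (L' : ℝ) ≤ R := by exact_mod_cast hL'.trans hLR
      exact hLL m R L' R ω hm hR le_rfl (hL'.trans hLR) (by linarith) hk1 hk2)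
    (fun r hr => by
      have hrR : (r : ℝ) ≤ R := by exact_mod_cast (by omega : r ≤ R)
      have hr0 : (0 : ℝ) ≤ r := Nat.cast_nonneg _
      exact hA _ (by linarith) (by linarith))
    hvar
  refine habel.trans ?_
  have hLRr : (L : ℝ) ≤ R := by exact_mod_cast hLR
  have hb0 : (0 : ℝ) ≤ b := Nat.cast_nonneg _
  have g1 : (L : ℝ) * (M * ((b + 2) * P / R)) ≤ M * ((b + 2) * P) := by
    calc (L : ℝ) * (M * ((b + 2) * P / R)) ≤ R * (M * ((b + 2) * P / R)) :=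
          mul_le_mul_of_nonneg_right hLRr (by positivity)
      _ = M * ((b + 2) * P) := by field_simp
  have g2 : M + M * ((b + 2) * P) ≤ M * ((b + 3) * P) := by
    have : M * 1 ≤ M * P := mul_le_mul_of_nonneg_left hP1 hM0
    nlinarith
  calc B * (M + L * (M * ((b + 2) * P / R))) ≤ B * (M * ((b + 3) * P)) :=
        mul_le_mul_of_nonneg_left (by linarith) hB0
    _ = _ := by
        rw [hB, hM, hP]
        ring

end Pool.Agent.U678.GZ.BB
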