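import Pool.Agent.U79.GZ.Stm
import Pool.Agent.U739.GE.GOOD

/-!
# Project GZ, package DSC2 (helper678): the second Selmer group
-/

set_option autoImplicit false
set_option linter.unusedVariables false
set_option linter.unusedSectionVars false

open scoped Classical

namespace Pool.Agent.U678.GZ

open Finset hiding ext
open Pool.Agent.Y703.CQ (nr)
open Pool.Agent.U115.GE (Qs ELS SelSet sel RtG lsol_of_qs qs_scale S_GOOD)
open Pool.Agent.U115.TP (LSol)
open Pool.Agent.U79.GY (Cfg Ok Hc Sp In Cl s4 Mod cfg)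
open Pool.Agent.U79.GZ
open Pool.Agent.U255.GY (ff dv uu xx Hyp eq_uu uu_dvd dv_not xx_zero row ne_of_mem)

/-! ### linear algebra -/

/-- the entries of the matrix -/
noncomputable def BB (γ : ℕ → ℕ → ZMod 2) (f : ℕ → ZMod 2) (S : Finset ℕ) (p r : ℕ) : ZMod 2 :=
  if r = p then ∑ q ∈ S.erase p, nr p q + γ p p + f p else nr p r + γ p r

theorem row_eq (γ : ℕ → ℕ → ZMod 2) (f : ℕ → ZMod 2) (S : Finset ℕ) (x : ℕ → ZMod 2) {p : ℕ}
    (hp : p ∈ S) : ∑ q ∈ S, nr p q * (x q + x p) + ∑ q ∈ S, γ p q * x q + f p * x p =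
      ∑ q ∈ S, BB γ f S p q * x q := by
  rw [← Finset.add_sum_erase S _ hp, ← Finset.add_sum_erase S (fun q => γ p q * x q) hp,
    ← Finset.add_sum_erase S (fun q => BB γ f S p q * x q) hp]
  have h1 : ∑ q ∈ S.erase p, BB γ f S p q * x q =
      ∑ q ∈ S.erase p, nr p q * x q + ∑ q ∈ S.erase p, γ p q * x q := by
    rw [← Finset.sum_add_distrib]
    refine Finset.sum_congr rfl fun q hq => ?_
    rw [BB, if_neg (Finset.ne_of_mem_erase hq)]
    ring
  have h2 : BB γ f S p p = ∑ q ∈ S.erase p, nr p q + γ p p + f p := if_pos rfl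
  have h3 : ∑ q ∈ S.erase p, nr p q * (x q + x p) =
      ∑ q ∈ S.erase p, nr p q * x q + (∑ q ∈ S.erase p, nr p q) * x p := by
    rw [Finset.sum_mul, ← Finset.sum_add_distrib]
    refine Finset.sum_congr rfl fun q hq => ?_
    ring
  rw [h1, h2, h3, CharTwo.add_self_eq_zero]
  ring

open Matrix in
theorem transp (G : Cfg) (γ : ℕ → ℕ → ZMod 2) (f : ℕ → ZMod 2) (S : Finset ℕ) (hG : Gd G γ f S)
    (y : ℕ → ZMod 2) (hy : ∀ p, ¬ (p ∈ S ∧ Hc G p) → y p = 0)
    (hcol : ∀ q ∈ S, Hc G q → ∑ p ∈ S, y p * BB γ f S p q = 0) : ∀ p, y p = 0 := by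
  set F := S.filter (fun p => Hc G p) with hF
  have hsumF : ∀ g : ℕ → ZMod 2, (∀ p, ¬ (p ∈ S ∧ Hc G p) → g p = 0) →
      ∑ p ∈ S, g p = ∑ p : F, g p := by
    intro g hg
    rw [Finset.sum_coe_sort F g, hF, Finset.sum_filter]
    refine Finset.sum_congr rfl fun p hp => ?_
    by_cases h : Hc G p
    · rw [if_pos h]
    · rw [if_neg h]
      exact hg p (fun h2 => h h2.2)
  let A : Matrix F F (ZMod 2) := fun p q => BB γ f S p q
  have hinj : ¬ ∃ v, v ≠ 0 ∧ A *ᵥ v = 0 := by
    rintro ⟨v, hv, hAv⟩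
    apply hv
    let x : ℕ → ZMod 2 := fun p => if h : p ∈ F then v ⟨p, h⟩ else 0
    have hx0 : ∀ p, ¬ (p ∈ S ∧ Hc G p) → x p = 0 := by
      intro p hp
      have : p ∉ F := fun h => hp (Finset.mem_filter.1 h)
      simp [x, this]
    have hxF : ∀ p : F, x p = v p := by
      intro p
      simp [x]
    have hx := hG x hx0 (by
      intro p hp hpH
      rw [row_eq γ f S x hp, hsumF (fun q => BB γ f S p q * x q)
        (fun q hq => by rw [hx0 q hq, mul_zero])]
      have h1 := congrFun hAv ⟨p, Finset.mem_filter.2 ⟨hp, hpH⟩⟩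
      rw [Pi.zero_apply] at h1
      rw [← h1]
      simp only [Matrix.mulVec, dotProduct, A]
      refine Finset.sum_congr rfl fun q _ => ?_
      rw [hxF])
    funext p
    rw [← hxF, hx, Pi.zero_apply]
  have hdet : A.det ≠ 0 := fun h => hinj (Matrix.exists_mulVec_eq_zero_iff.2 h)
  have h2 : ¬ ∃ v, v ≠ 0 ∧ v ᵥ* A = 0 := fun h => hdet (Matrix.exists_vecMul_eq_zero_iff.1 h)
  intro p
  by_contra hp
  have hpF : p ∈ F := by
    by_contra h
    exact hp (hy p (fun h3 => h (Finset.mem_filter.2 h3)))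
  apply h2
  refine ⟨fun p => y p, ?_, ?_⟩
  · intro h
    exact hp (congrFun h ⟨p, hpF⟩)
  · funext q
    have h3 := hcol q (Finset.mem_filter.1 q.2).1 (Finset.mem_filter.1 q.2).2
    rw [hsumF (fun p => y p * BB γ f S p q)
        (fun p hp => by rw [hy p hp, zero_mul])] at h3
    rw [Pi.zero_apply, ← h3]
    rfl

/-! ### squares at the bad places -/

theorem sqD {M D : ℕ} (h : Pr M D) (l : ℕ) [hl : Fact l.Prime] (hlM : l ∣ M) :
    IsSquare (((D : ℕ) : ℤ) : ℚ_[l]) := by
  by_cases h2 : l = 2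
  · subst h2
    have hD := h.1
    obtain ⟨k, hk⟩ : ∃ k : ℕ, D = 1 + 8 * k := ⟨D / 8, by omega⟩
    obtain ⟨s, hs⟩ := Pool.Agent.Y587.SG.hens 2 (k : ℤ_[2])
    refine ⟨s, ?_⟩
    have e0 : (1 : ℤ_[2]) + 4 * ((2 : ℕ) : ℤ_[2]) * (k : ℤ_[2]) = ((1 + 8 * k : ℕ) : ℤ_[2]) := by
      push_cast
      ring
    rw [e0, ← hk] at hs
    have h1 := congrArg (fun w : ℤ_[2] => (w : ℚ_[2])) hs
    push_cast at h1
    push_cast
    exact h1
  · have hj := h.2 l hl.out h2 hlM
    rw [← jacobiSym.legendreSym.to_jacobiSym] at hj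
    have hj' : quadraticChar (ZMod l) (PadicInt.toZMod ((D : ℕ) : ℤ_[l])) = 1 := by
      rw [map_natCast]
      unfold legendreSym at hj
      push_cast at hj
      exact hj
    obtain ⟨v, hv⟩ := Pool.Agent.TH841.LS.LOCA0.sq_of_char h2 hj'
    refine ⟨v, ?_⟩
    have h1 := congrArg (fun w : ℤ_[l] => (w : ℚ_[l])) hv
    push_cast at h1
    push_cast
    exact h1

theorem scale {K : Type} [Field K] {a b u D : ℤ} (hD : IsSquare (D : K)) (hD0 : (D : K) ≠ 0)
    (h : Qs K (a * D) (b * D ^ 2) u) : Qs K a b u := by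
  have h1 := qs_scale (K := K) (a := a) (b := b) (u := u) (c := 1) hD hD0
    ⟨1, by push_cast; ring⟩ (by push_cast; exact one_ne_zero)
  rw [one_mul] at h1
  exact h1.1 h

/-! ### symbols -/

theorem nz_eq (p : ℕ) (z : ℤ) : nz p z = Pool.Agent.U255.GY.nz p z := rfl

theorem nz_mul {p : ℕ} [hp : Fact p.Prime] {m n : ℤ} (hm : ¬ (p : ℤ) ∣ m)
    (hn : ¬ (p : ℤ) ∣ n) : nz p (m * n) = nz p m + nz p n := by
  rw [nz_eq, nz_eq, nz_eq]
  exact Pool.Agent.U255.GY.nz_mul (fun h => hm ((ZMod.intCast_zmod_eq_zero_iff_dvd _ _).1 h))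
    (fun h => hn ((ZMod.intCast_zmod_eq_zero_iff_dvd _ _).1 h))

theorem nz_nat (p n : ℕ) : nz p (n : ℤ) = nr p n := Pool.Agent.U255.GY.nz_nat p n

theorem nz_one (p : ℕ) : nz p 1 = 0 := by
  unfold nz
  rw [if_pos]
  exact ⟨1, by push_cast; ring⟩

theorem not_dvd_prod {p : ℕ} (hp : p.Prime) {T : Finset ℤ} {g : ℤ → ℤ}
    (h : ∀ t ∈ T, ¬ (p : ℤ) ∣ g t) : ¬ (p : ℤ) ∣ ∏ t ∈ T, g t := by
  rw [(Nat.prime_iff_prime_int.1 hp).dvd_finsetProd_iff]
  rintro ⟨t, ht, h1⟩
  exact h t ht h1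

theorem nz_vv_aux {p q : ℕ} [hp : Fact p.Prime] (w : ℤ → ℤ) (T : Finset ℤ)
    (hT : ∀ g ∈ T, ¬ (p : ℤ) ∣ g) :
    nz p (∏ g ∈ T, if IsSquare (w g : ZMod q) then 1 else g) = ∑ g ∈ T, nz p g * nz q (w g) := by
  have hterm : ∀ g ∈ T, ¬ (p : ℤ) ∣ (if IsSquare (w g : ZMod q) then 1 else g) := by
    intro g hg
    split_ifs
    · intro h
      have h1 : p ∣ 1 := by exact_mod_cast h
      exact hp.out.one_lt.ne' (Nat.dvd_one.1 h1)
    · exact hT g hg
  induction T using Finset.induction_on with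
  | empty => simp [nz_one]
  | insert g T hg ih =>
    rw [Finset.prod_insert hg, Finset.sum_insert hg, nz_mul (hterm g (Finset.mem_insert_self _ _))
      (not_dvd_prod hp.out fun t ht => hterm t (Finset.mem_insert_of_mem ht)),
      ih (fun t ht => hT t (Finset.mem_insert_of_mem ht))
      (fun t ht => hterm t (Finset.mem_insert_of_mem ht))]
    congr 1
    by_cases h : IsSquare (w g : ZMod q)
    · rw [if_pos h, nz_one]
      have : nz q (w g) = 0 := if_pos h
      rw [this, mul_zero]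
    · rw [if_neg h]
      have : nz q (w g) = 1 := if_neg h
      rw [this, mul_one]

theorem mem_Gn {M : ℕ} {g : ℤ} (hg : g ∈ Gn M) : g = -1 ∨ ∃ l ∈ M.primeFactors, (l : ℤ) = g := by
  unfold Gn at hg
  rcases Finset.mem_insert.1 hg with h | hg
  · exact Or.inl h
  · right
    rw [Finset.mem_image] at hg
    obtain ⟨l, hl, rfl⟩ := hg
    simp only [Finset.bind_def, Finset.pure_def, Finset.mem_sup, Finset.mem_singleton] at hl
    obtain ⟨a, ha, h⟩ := hl
    exact ⟨a, ha, h.symm⟩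

theorem not_dvd_gn {p M : ℕ} (hp : p.Prime) (hpM : ¬ p ∣ M) {g : ℤ} (hg : g ∈ Gn M) :
    ¬ (p : ℤ) ∣ g := by
  rcases mem_Gn hg with rfl | ⟨l, hl, rfl⟩
  · intro h
    have h1 : p ∣ 1 := by
      have := Int.natAbs_dvd_natAbs.2 h
      simpa using this
    exact hp.one_lt.ne' (Nat.dvd_one.1 h1)
  · intro h
    have h1 : p ∣ l := by exact_mod_cast h
    exact hpM (h1.trans (Nat.dvd_of_mem_primeFactors hl))

theorem not_dvd_vv {p M : ℕ} (hp : p.Prime) (hpM : ¬ p ∣ M) (w : ℤ → ℤ) (q : ℕ) :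
    ¬ (p : ℤ) ∣ vv M w q := by
  unfold vv
  apply not_dvd_prod hp
  intro g hg
  split_ifs
  · intro h
    have h1 : p ∣ 1 := by exact_mod_cast h
    exact hp.one_lt.ne' (Nat.dvd_one.1 h1)
  · exact not_dvd_gn hp hpM hg

theorem nz_vv {p M : ℕ} [hp : Fact p.Prime] (hpM : ¬ p ∣ M) (w : ℤ → ℤ) (q : ℕ) :
    nz p (vv M w q) = gm M w p q :=
  nz_vv_aux w (Gn M) fun g hg => not_dvd_gn hp.out hpM hg

theorem val0 {p : ℕ} {z : ℤ} (h : ¬ (p : ℤ) ∣ z) : padicValInt p z = 0 :=
  padicValInt.eq_zero_of_not_dvd h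

theorem val1 {p : ℕ} [hp : Fact p.Prime] {z : ℤ} (h : ¬ (p : ℤ) ∣ z) :
    padicValInt p (p * z) = 1 := by
  have hz : z ≠ 0 := by
    rintro rfl
    exact h (dvd_zero _)
  rw [padicValInt.mul (by exact_mod_cast hp.out.ne_zero) hz, padicValInt_self, val0 h]

theorem hp01 {p : ℕ} [hF : Fact p.Prime] {x y1 : ℤ} (hx : ¬ (p : ℤ) ∣ x) (hy : ¬ (p : ℤ) ∣ y1) :
    hp p x (p * y1) = nz p x := by
  unfold hp
  rw [val0 hx, val1 hy]
  simp

theorem hp10 {p : ℕ} [hF : Fact p.Prime] {x1 y : ℤ} (hx : ¬ (p : ℤ) ∣ x1) (hy : ¬ (p : ℤ) ∣ y) :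
    hp p (p * x1) y = nz p y := by
  unfold hp
  rw [val0 hy, val1 hx]
  simp

theorem hp11 {p : ℕ} [hF : Fact p.Prime] {x1 y1 : ℤ} (hx : ¬ (p : ℤ) ∣ x1)
    (hy : ¬ (p : ℤ) ∣ y1) : hp p (p * x1) (p * y1) = s4 p + nz p x1 + nz p y1 := by
  have hp0 : (p : ℤ) ≠ 0 := by exact_mod_cast hF.out.ne_zero
  unfold hp
  rw [val1 hy, val1 hx, pow_one, Int.mul_ediv_cancel_left _ hp0, Int.mul_ediv_cancel_left _ hp0]
  simp

theorem hp00 {p : ℕ} {x y : ℤ} (hx : ¬ (p : ℤ) ∣ x) (hy : ¬ (p : ℤ) ∣ y) : hp p x y = 0 := by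
  unfold hp
  rw [val0 hx, val0 hy]
  simp

/-! ### the main theorem -/

theorem t_DSC2 : S_DSC2 := by
  intro hCFG hREC hNRM hNRM2 hISO hFF a b M w H S hCl hPr hGd
  set c : ℤ := a ^ 2 - 4 * b with hc
  obtain ⟨hOk, hSp, hIn⟩ := hCFG b c M H.hM H.nb H.nc
  set G := cfg b c M with hG
  have hS : ∀ p ∈ S, p.Prime := fun p hp => by
    rcases hCl p hp with h | h
    · exact h.1
    · exact h.1
  have hSM : ∀ p ∈ S, ¬ p ∣ M := fun p hp => by
    rcases hCl p hp with h | h
    · exact ((hSp p h.1).1 h).1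
    · exact ((hIn p h.1).1 h).1
  have hb0 : b ≠ 0 := by
    intro h
    apply H.nb
    rw [h]
    exact ⟨0, by ring⟩
  have hc0 : c ≠ 0 := by
    intro h
    apply H.nc
    rw [← hc, h]
    exact ⟨0, by ring⟩
  set D : ℕ := ∏ p ∈ S, p with hD
  have hDpos : 0 < D := Finset.prod_pos fun p hp => (hS p hp).pos
  have hne2 : ∀ p : ℕ, ¬ p ∣ M → p ≠ 2 := by
    rintro p hp rfl
    exact hp H.hM.two
  have hbM : ∀ p : ℕ, ¬ p ∣ M → ¬ (p : ℤ) ∣ b := fun p hp h =>
    hp ((Int.natCast_dvd.1 h).trans H.hM.hb)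
  have hcM : ∀ p : ℕ, ¬ p ∣ M → ¬ (p : ℤ) ∣ c := fun p hp h =>
    hp ((Int.natCast_dvd.1 h).trans H.hM.hc)
  have h16 : ∀ p : ℕ, p.Prime → ¬ p ∣ M → ¬ p ∣ 16 := by
    intro p hp hpM h
    have h1 : p ∣ 2 := hp.dvd_of_dvd_pow (show p ∣ 2 ^ 4 by norm_num; exact h)
    exact hne2 p hpM ((Nat.prime_dvd_prime_iff_eq hp Nat.prime_two).1 h1)
  have hcc : (-2 * a) ^ 2 - 4 * c = 16 * b := by rw [hc]; ring
  have hM' : Mod c ((-2 * a) ^ 2 - 4 * c) (16 * M) := by
    rw [hcc]
    refine ⟨by have := H.hM.pos; omega, H.hM.two.mul_left _, H.hM.hc.mul_left _, ?_⟩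
    rw [Int.natAbs_mul]
    exact Nat.mul_dvd_mul (dvd_refl _) H.hM.hb
  -- the hypothesis for the dual isogeny
  have hHyp : Hyp (-2 * a) c (16 * M) (Hc G) S := by
    intro p hp
    have hpp := hS p hp
    have := Fact.mk hpp
    have hsq16 : ∀ z : ℤ, IsSquare (((16 * z : ℤ)) : ZMod p) ↔ IsSquare (z : ZMod p) := by
      intro z
      have h4 : (4 : ZMod p) ≠ 0 := by
        intro h
        have h5 : ((4 : ℕ) : ZMod p) = 0 := by exact_mod_cast h
        rw [ZMod.natCast_eq_zero_iff] at h5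
        have h6 : p ∣ 2 := hpp.dvd_of_dvd_pow (show p ∣ 2 ^ 2 by norm_num; exact h5)
        exact hne2 p (hSM p hp) ((Nat.prime_dvd_prime_iff_eq hpp Nat.prime_two).1 h6)
      constructor
      · rintro ⟨s, hs⟩
        refine ⟨s / 4, ?_⟩
        push_cast at hs
        field_simp
        linear_combination hs
      · rintro ⟨s, hs⟩
        refine ⟨4 * s, ?_⟩
        push_cast
        rw [hs]
        ring
    refine ⟨hpp, ?_, ?_⟩
    · intro h
      rcases (Nat.Prime.dvd_mul hpp).1 h with h | h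
      · exact h16 p hpp (hSM p hp) h
      · exact hSM p hp h
    · rw [hcc, hsq16]
      rcases hCl p hp with h | h
      · exact Or.inl ⟨h.2, ((hSp p hpp).1 h).2.2, ((hSp p hpp).1 h).2.1⟩
      · exact Or.inr ⟨(hOk.hB _ h.2).2.2, ((hIn p hpp).1 h).2.2, ((hIn p hpp).1 h).2.1⟩
  have hsub : SelSet (-2 * (a * (D : ℤ))) (c * (D : ℤ) ^ 2) ⊆ SelSet (-2 * a) c := by
    rintro d ⟨hd, hdR, hdp⟩
    have hAB : -2 * (a * (D : ℤ)) = (-2 * a) * D := by ring
    rw [hAB] at hdR hdp
    have hd0 : d ≠ 0 := hd.ne_zero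
    have hL : ∀ (l : ℕ) [Fact l.Prime], LSol ((-2 * a) * (D : ℤ)) (c * (D : ℤ) ^ 2) d l :=
      fun l _ => lsol_of_qs hd (hdp l)
    have hbad : ∀ (l : ℕ) [Fact l.Prime], l ∣ M → Qs ℚ_[l] (-2 * a) c d := fun l _ hl =>
      scale (sqD hPr l hl) (by exact_mod_cast hDpos.ne') (hdp l)
    have hR : Qs ℝ (-2 * a) c d := by
      refine scale ?_ (by exact_mod_cast hDpos.ne') hdR
      refine ⟨Real.sqrt D, ?_⟩
      rw [Real.mul_self_sqrt (Nat.cast_nonneg _)]
      push_cast
      rfl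
    -- the primes dividing `d`
    set T := dv (Hc G) S d with hT
    have hTS : T ⊆ S := Finset.filter_subset _ _
    have hTp : ∀ q ∈ T, q.Prime := fun q hq => hS q (hTS hq)
    have hu := eq_uu (Hc G) S hS d
    have hTd : ∀ p ∈ T, (p : ℤ) ∣ d := fun p hp => (Finset.mem_filter.1 hp).2.2
    have huc : ∀ p : ℕ, p.Prime → (p : ℤ) ∣ uu (Hc G) S d → (p : ℤ) ∣ c := fun p hp h =>
      uu_dvd hHyp hd hL hp h
    have hdT : ∀ p : ℕ, p.Prime → ¬ p ∣ M → (p : ℤ) ∣ d → p ∈ T := by
      intro p hp hpM h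
      rw [hu] at h
      rcases (Nat.prime_iff_prime_int.1 hp).dvd_or_dvd h with h | h
      · have h1 : p ∣ ∏ q ∈ T, q := by exact_mod_cast h
        obtain ⟨q, hq, h2⟩ := (Prime.dvd_finsetProd_iff hp.prime _).1 h1
        rw [(Nat.prime_dvd_prime_iff_eq hp (hTp q hq)).1 h2]
        exact hq
      · exact absurd (huc p hp h) (hcM p hpM)
    set x' := xx (Hc G) S d with hx'd
    have hx1 : ∀ p ∈ T, x' p = 1 := fun p hp => if_pos hp
    have hx0 : ∀ p, p ∉ T → x' p = 0 := fun p hp => if_neg hp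
    have hx' : ∀ p, x' p = 0 := by
      apply transp G (gm M w) (ff a b) S hGd x' (fun p hp => xx_zero hp)
      intro q hq hqH
      have hqp := hS q hq
      have := Fact.mk hqp
      have hqM := hSM q hq
      have hqSp : Sp G q := ⟨hqp, hqH⟩
      set v := vv M w q with hv
      have hqv : ¬ (q : ℤ) ∣ v := not_dvd_vv hqp hqM w q
      have hLS : LS a b M (q * v) := H.hL q hqSp
      have hv0 : v ≠ 0 := by
        intro h
        rw [h] at hqv
        exact hqv (dvd_zero _)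
      have hx0' : (q : ℤ) * v ≠ 0 := mul_ne_zero (by exact_mod_cast hqp.ne_zero) hv0
      have e1 : hr (q * v) d = 0 :=
        (hNRM (q * v) d hx0' hd0).1 (by
          obtain ⟨s, t, h⟩ := hISO ℝ a b (q * v) d hb0 hc0 hx0' hd0 hLS.1 hR
          exact ⟨s, t, h⟩)
      have e2 : h2 (q * v) d = 0 := by
        have : Fact (Nat.Prime 2) := ⟨Nat.prime_two⟩
        refine hNRM2 (q * v) d hx0' hd0 ?_
        exact hISO ℚ_[2] a b (q * v) d hb0 hc0 hx0' hd0 (hLS.2 2 H.hM.two) (hbad 2 H.hM.two)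
      have e3 : ∀ l : ℕ, l.Prime → l ≠ 2 → l ∣ M → hp l (q * v) d = 0 := by
        intro l hl hl2 hlM
        have := Fact.mk hl
        refine (hNRM (q * v) d hx0' hd0).2 l hl2 ?_
        exact hISO ℚ_[l] a b (q * v) d hb0 hc0 hx0' hd0 (hLS.2 l hlM) (hbad l hlM)
      have hrec := hREC (q * v) d hx0' hd0
      rw [e1, e2, zero_add, zero_add] at hrec
      have hsum : ∑ p ∈ insert q T, hp p (q * v) d = 0 := by
        rw [← hrec]
        apply Finset.sum_subset
        · intro p hp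
          rw [Finset.mem_erase, Nat.mem_primeFactors]
          rcases Finset.mem_insert.1 hp with rfl | hp
          · refine ⟨hne2 _ hqM, hqp, ?_, ?_⟩
            · exact Int.natCast_dvd.1 ((dvd_mul_right _ _).mul_right _)
            · exact Int.natAbs_ne_zero.2 (mul_ne_zero hx0' hd0)
          · refine ⟨hne2 _ (hSM p (hTS hp)), hTp p hp, ?_, ?_⟩
            · exact Int.natCast_dvd.1 ((hTd p hp).mul_left _)
            · exact Int.natAbs_ne_zero.2 (mul_ne_zero hx0' hd0)
        · intro p hp hpn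
          rw [Finset.mem_erase, Nat.mem_primeFactors] at hp
          obtain ⟨hp2, hpp, -, -⟩ := hp
          rw [Finset.mem_insert, not_or] at hpn
          by_cases hpM : p ∣ M
          · exact e3 p hpp hp2 hpM
          · apply hp00
            · intro h
              rcases (Nat.prime_iff_prime_int.1 hpp).dvd_or_dvd h with h | h
              · have h1 : p ∣ q := by exact_mod_cast h
                exact hpn.1 ((Nat.prime_dvd_prime_iff_eq hpp hqp).1 h1)
              · exact not_dvd_vv hpp hpM w q h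
            · intro h
              exact hpn.2 (hdT p hpp hpM h)
      -- the cofactor of `p ∈ T`
      have hcof : ∀ p ∈ T, ∃ d1 : ℤ, d = p * d1 ∧ ¬ (p : ℤ) ∣ d1 ∧
          d1 = ((∏ r ∈ T.erase p, r : ℕ) : ℤ) * uu (Hc G) S d := by
        intro p hp
        have hdd : d = p * (((∏ r ∈ T.erase p, r : ℕ) : ℤ) * uu (Hc G) S d) := by
          conv_lhs => rw [hu]
          rw [← Finset.mul_prod_erase T (fun q => q) hp]
          push_cast
          ring
        refine ⟨_, hdd, ?_, rfl⟩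
        intro h
        have h4 : (p : ℤ) * p ∣ d := by
          conv_rhs => rw [hdd]
          exact mul_dvd_mul_left _ h
        exact (Nat.prime_iff_prime_int.1 (hTp p hp)).not_isUnit (hd _ h4)
      have hval : ∀ p ∈ T, p ≠ q → hp p (q * v) d = BB (gm M w) (ff a b) S p q := by
        intro p hp hpq
        obtain ⟨d1, hdd, hd1, -⟩ := hcof p hp
        have hpp := hTp p hp
        have := Fact.mk hpp
        have hpM := hSM p (hTS hp)
        have hpq' : ¬ (p : ℤ) ∣ (q : ℤ) := by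
          intro h
          have h1 : p ∣ q := by exact_mod_cast h
          exact hpq ((Nat.prime_dvd_prime_iff_eq hpp hqp).1 h1)
        have hpv : ¬ (p : ℤ) ∣ v := not_dvd_vv hpp hpM w q
        rw [hdd, hp01 ?_ hd1, nz_mul hpq' hpv, nz_nat, nz_vv hpM, BB, if_neg (Ne.symm hpq)]
        intro h
        rcases (Nat.prime_iff_prime_int.1 hpp).dvd_or_dvd h with h | h
        · exact hpq' h
        · exact hpv h
      -- the row of `q`
      have hrow : ∑ r ∈ S, nr q r * (x' r + x' q) + ff (-2 * a) c q * x' q =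
          nz q (uu (Hc G) S d) := row hM' hHyp hd hL hq hqH
      have hff : ff (-2 * a) c q = ff a b q + s4 q := by
        have h1 := (hSp q hqp).1 hqSp
        refine hFF a b q hqp (hne2 q hqM) ?_ ?_ h1.2.1 h1.2.2
        · rw [Ne, ZMod.intCast_zmod_eq_zero_iff_dvd]
          exact hbM q hqM
        · rw [Ne, ZMod.intCast_zmod_eq_zero_iff_dvd]
          exact hcM q hqM
      have hnu : ¬ (q : ℤ) ∣ uu (Hc G) S d := dv_not hS hd hq hqH
      have hxsum : ∀ U : Finset ℕ, ∑ r ∈ U, nr q r * x' r =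
          ∑ r ∈ U.filter (· ∈ T), nr q r := by
        intro U
        rw [Finset.sum_filter]
        refine Finset.sum_congr rfl fun r _ => ?_
        by_cases hr : r ∈ T
        · rw [hx1 r hr, if_pos hr, mul_one]
        · rw [hx0 r hr, if_neg hr, mul_zero]
      have hvq : hp q (q * v) d = x' q * BB (gm M w) (ff a b) S q q := by
        by_cases hqT : q ∈ T
        · obtain ⟨d1, hdd, hd1, hd1'⟩ := hcof q hqT
          have hzd1 : nz q d1 = ∑ r ∈ T.erase q, nr q r + nz q (uu (Hc G) S d) := by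
            rw [hd1', nz_mul ?_ hnu]
            · congr 1
              exact Pool.Agent.U255.GY.nz_prod (fun r hr => hTp r (Finset.mem_of_mem_erase hr))
                (Finset.notMem_erase q _)
            · intro h
              exact ne_of_mem (fun r hr => hTp r (Finset.mem_of_mem_erase hr))
                (Finset.notMem_erase q _) ((ZMod.intCast_zmod_eq_zero_iff_dvd _ _).2 h)
          have hrow' : nz q (uu (Hc G) S d) =
              ∑ r ∈ T.erase q, nr q r + ∑ r ∈ S.erase q, nr q r + (ff a b q + s4 q) := by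
            rw [← hrow, hff, hx1 q hqT, mul_one]
            congr 1
            rw [← Finset.add_sum_erase S _ hq, hx1 q hqT,
              show (1 : ZMod 2) + 1 = 0 by decide, mul_zero, zero_add]
            have h6 : ∑ r ∈ S.erase q, nr q r * (x' r + 1) =
                ∑ r ∈ S.erase q, nr q r * x' r + ∑ r ∈ S.erase q, nr q r := by
              rw [← Finset.sum_add_distrib]
              exact Finset.sum_congr rfl fun r _ => by ring
            rw [h6, hxsum]
            congr 2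
            ext r
            simp only [Finset.mem_filter, Finset.mem_erase]
            constructor
            · rintro ⟨⟨h1, -⟩, h2⟩
              exact ⟨h1, h2⟩
            · rintro ⟨h1, h2⟩
              exact ⟨⟨h1, hTS h2⟩, h2⟩
          rw [hdd, hp11 hqv hd1, hzd1, hrow', nz_vv hqM, hx1 q hqT, one_mul, BB, if_pos rfl]
          generalize ∑ r ∈ T.erase q, nr q r = A1
          generalize ∑ r ∈ S.erase q, nr q r = A2
          generalize s4 q = A3
          generalize gm M w q q = A4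
          generalize ff a b q = A5
          revert A1 A2 A3 A4 A5
          decide
        · have hqd : ¬ (q : ℤ) ∣ d := fun h => hqT (hdT q hqp hqM h)
          rw [hp10 hqv hqd, hx0 q hqT, zero_mul]
          have h1 : ¬ (q : ℤ) ∣ ((∏ r ∈ T, r : ℕ) : ℤ) := by
            intro h
            exact ne_of_mem hTp hqT ((ZMod.intCast_zmod_eq_zero_iff_dvd _ _).2 h)
          have h2 : nz q ((∏ r ∈ T, r : ℕ) : ℤ) = ∑ r ∈ T, nr q r :=
            Pool.Agent.U255.GY.nz_prod hTp hqT
          rw [hu, nz_mul h1 hnu, h2]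
          rw [← hrow, hx0 q hqT]
          simp only [add_zero, mul_zero]
          rw [hxsum]
          have h6 : S.filter (· ∈ T) = T := by
            ext r
            simp only [Finset.mem_filter]
            exact ⟨fun h => h.2, fun h => ⟨hTS h, h⟩⟩
          rw [h6, CharTwo.add_self_eq_zero]
      -- the column
      have hcol : ∑ p ∈ S, x' p * BB (gm M w) (ff a b) S p q =
          ∑ p ∈ T, BB (gm M w) (ff a b) S p q := by
        have h6 : S.filter (· ∈ T) = T := by
          ext r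
          simp only [Finset.mem_filter]
          exact ⟨fun h => h.2, fun h => ⟨hTS h, h⟩⟩
        conv_rhs => rw [← h6]
        rw [Finset.sum_filter]
        refine Finset.sum_congr rfl fun r _ => ?_
        by_cases hr : r ∈ T
        · rw [hx1 r hr, if_pos hr, one_mul]
        · rw [hx0 r hr, if_neg hr, zero_mul]
      rw [hcol, ← hsum]
      by_cases hqT : q ∈ T
      · rw [Finset.insert_eq_of_mem hqT]
        refine Finset.sum_congr rfl fun p hp => ?_
        by_cases hpq : p = q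
        · rw [hpq, hvq, hx1 q hqT, one_mul]
        · exact (hval p hp hpq).symm
      · rw [Finset.sum_insert hqT, hvq, hx0 q hqT, zero_mul, zero_add]
        refine Finset.sum_congr rfl fun p hp => ?_
        refine (hval p hp ?_).symm
        rintro rfl
        exact hqT hp
    have hTe : T = ∅ := by
      rw [Finset.eq_empty_iff_forall_notMem]
      intro p hp
      have h1 := hx1 p hp
      rw [hx' p] at h1
      exact zero_ne_one h1
    refine ⟨hd, hR, fun p _ => ?_⟩
    by_cases hpM : p ∣ M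
    · exact hbad p hpM
    · rename_i hpF
      refine Pool.Agent.U739.GE.t_GOOD (-2 * a) c d p (hne2 p hpM) (hcM p hpM) ?_ ?_
      · rw [hcc]
        intro h
        rcases (Nat.prime_iff_prime_int.1 hpF.out).dvd_or_dvd h with h | h
        · exact h16 p hpF.out hpM (by exact_mod_cast h)
        · exact hbM p hpM h
      · intro h
        have h1 := hdT p hpF.out hpM h
        rw [hTe] at h1
        exact Finset.notMem_empty _ h1
  unfold sel
  have h2 : (SelSet (-2 * a) c).ncard = 2 := H.s2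
  have hfin : (SelSet (-2 * a) c).Finite := Set.finite_of_ncard_ne_zero (by rw [h2]; norm_num)
  exact (Set.ncard_le_ncard hsub hfin).trans h2.le

end Pool.Agent.U678.GZ
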